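import Mathlib
import Pool.Agent.helper67.RG.TT

/-!
# MP_2e0e07_nt: equivalent conditions for the geometric origin of `ad0 ρ`

Let `Γ` be a compact topological group with Haar measure `μ` and sets `frob v` of Frobenius
elements, dense in `Γ` also after removing finitely many places `v` (for the question: the absolute
Galois group of the imaginary quadratic field `K` and Chebotarev's theorem), `E` a field, `P i v`
(`i = 1, ..., r`) and `Q v = X² - a_v X + d_v` polynomials over `E` (for the question: the Frobenius
polynomials of cohomology groups of varieties over `K`, one of them `X - d_v` for `det ρ`, and the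
Hecke polynomials of a Bianchi newform `f` of any weight without CM with coefficients in `E`). No
hypothesis on weights, absolute values or integrality.

Theorem. Let `(F, V, ρ)` be a realisation: `F` an algebraically closed Hausdorff topological field of
characteristic zero containing `E`, `V i` and `ρ` continuous representations over `F` with these
Frobenius polynomials, `ρ` irreducible on every open subgroup. The following are equivalent.
1. One fixed algebraic relation: there are a non negligible set `S` of places (for instance of
   positive upper density) and a polynomial `Φ(T, x)` over `E` such that for `v ∈ S`, after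
   substitution of the coefficients of the `P i v` for `x`, `Φ` is nonzero and has the root `a_v`.
2. On some open subgroup the representation `ad0 ρ` of dimension three is a subquotient of a tensor
   product of copies of `V = ⊕ V i` and its dual (so it arises from the cohomology of products of
   the given varieties, over a finite extension of `K`).
3. (for `V i` over `ℚ_p`, `ρ` over a finite extension) `ker V · ker (ad ρ)` has infinite index in
   `Γ`: the fields cut out by the `V i` and by `ad ρ` have an intersection of infinite degree over
   `K`.
4. (if there are realisations over `ℚ_p` for sufficiently many `p`) Frobenius fields: for the places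
   `v` in a set whose Frobenius elements are dense in some open subgroup, the splitting field of
   `Q v`, that is `E(√(a_v² - 4 d_v))`, is contained in the splitting field of the product of the
   `P i v`.
The conditions 1 and 4 do not involve `F`: so 2 and 3 hold for all `p` if they hold for one.

Proof. 1 → 2: algebra of coefficients and measure (helper85/AR). 3 → 2: Lie algebras of compact
`p`-adic groups (helper55/FLD). 4 → 2: choose a place `v0` with as many eigenvalues as possible and
`p` split in its Frobenius field; multiply `Frob v0` by an element of `ker V` so that the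
discriminant for `ρ` has odd valuation (helper21/FF). 2 → 1: the quotient `x_v` of the eigenvalues of
`ρ` is a quotient of products of eigenvalues of `V`, and `a_v² = d_v (x_v + 2 + 1/x_v)`; in the ring
of all functions on the set of places `δ a_v` is integral over the ring of polynomials in the
coefficients of the `P i v` (TE, TA, TR). 2 → 3: on an open subgroup `ker V` acts by scalars (TM).
2 → 4: the eigenvalue is `a_v x_v / (1 + x_v)`, and `a_v ≠ 0` on a small subgroup (TB, TT).
-/

namespace Pool.Agent.Results.MP_2e0e07_nt.AdjointCriterion

open Matrix Polynomial Pool.Agent.GO Pool.Agent.AR Pool.Agent.RG MeasureTheory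

theorem result {Γ : Type} {Place : Type*} {E : Type} [Group Γ] [TopologicalSpace Γ]
    [IsTopologicalGroup Γ] [CompactSpace Γ] [MeasurableSpace Γ] [BorelSpace Γ]
    (μ : Measure Γ) [μ.IsHaarMeasure] (frob : Place → Set Γ)
    -- the Frobenius elements are dense
    (hd : DenseIn frob ⊤ Set.univ) [Field E]
    {r : ℕ} {n : Fin r → ℕ} (P : Fin r → Place → E[X]) (Q : Place → E[X])
    -- `det ρ` is one of the `V i`
    (i₀ : Fin r) (hdet : ∀ v, P i₀ v = X - C ((Q v).coeff 0)) :
    -- every realisation: a relation is equivalent to `ad0 ρ` in a tensor construction
    (∀ {F : Type*} [Field F] [IsAlgClosed F] [CharZero F] [TopologicalSpace F]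
      [IsTopologicalRing F] [T2Space F] (ι : E →+* F)
      (V : (i : Fin r) → Γ →* Matrix (Fin (n i)) (Fin (n i)) F)
      (ρ : Γ →* Matrix (Fin 2) (Fin 2) F), IsRealisation frob P Q ι V ρ →
      ((∃ (S : Set Place) (Φ : (MvPolynomial (Fin r × ℕ) E)[X]), NonNegl μ frob S ∧
          IsRelation P Q S Φ) ↔
        ∃ (U : Subgroup Γ) (a b : ℕ), IsOpen (U : Set Γ) ∧
          AdSubquotient U ρ (tens (dirSum V) a b))) ∧
    -- every p-adic realisation: and to the infinite intersection of the fields
    (∀ (p : ℕ) [Fact p.Prime] (F Ω : Type) [NormedField F] [NormedAlgebra ℚ_[p] F]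
      [FiniteDimensional ℚ_[p] F] [Field Ω] [IsAlgClosed Ω] [Algebra F Ω] [TopologicalSpace Ω]
      [IsTopologicalRing Ω] [T2Space Ω] (ι : E →+* Ω)
      (V : (i : Fin r) → Γ →* Matrix (Fin (n i)) (Fin (n i)) ℚ_[p])
      (ρ : Γ →* Matrix (Fin 2) (Fin 2) F), (∀ i, Continuous (V i)) → Continuous ρ →
      IsRealisation frob P Q ι
        (fun i => bc ((algebraMap F Ω).comp (algebraMap ℚ_[p] F)) (V i))
        (bc (algebraMap F Ω) ρ) →
      (¬ (meet V ρ).FiniteIndex ↔
        ∃ (U : Subgroup Γ) (a b : ℕ), IsOpen (U : Set Γ) ∧ AdSubquotient U (bc (algebraMap F Ω) ρ)
          (tens (dirSum fun i => bc ((algebraMap F Ω).comp (algebraMap ℚ_[p] F)) (V i)) a b))) ∧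
    -- realisations over `ℚ_p` for sufficiently many `p`: and to the inclusion of Frobenius fields
    (HasMembers frob n P Q →
      ((∃ (S : Set Place) (Φ : (MvPolynomial (Fin r × ℕ) E)[X]), NonNegl μ frob S ∧
          IsRelation P Q S Φ) ↔
        ∃ (U : Subgroup Γ) (S : Set Place), IsOpen (U : Set Γ) ∧ DenseIn frob U S ∧
          FrobeniusFields P Q S)) :=
  ⟨fun ι V ρ hR => ar1 μ frob hd P Q i₀ hdet ι V ρ hR,
    fun p _ F Ω _ _ _ _ _ _ _ _ _ ι V ρ hV hρ hR => ar2 frob P Q p F Ω ι V ρ hV hρ hR,
    fun hm => (ar3 μ frob hd P Q i₀ hdet hm).symm⟩

end Pool.Agent.Results.MP_2e0e07_nt.AdjointCriterion
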